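import Pool.Agent.Q224.ThreeGood

/-!
# MP_b44c8b_co, Q1: every `[n]` has a 3-good partition

For every positive integer `n` the set `{1, ..., n}` can be partitioned into nonempty parts with
at most three elements each, the sum of every part being a power of three.
-/

namespace Pool.Agent.Results.MP_b44c8b_co.ThreeGoodPartition

theorem result (n : ℕ) (_hn : 0 < n) :
    ∃ P : Finpartition (Finset.Icc 1 n), ∀ p ∈ P.parts,
      1 ≤ p.card ∧ p.card ≤ 3 ∧ ∃ j : ℕ, ∑ x ∈ p, x = 3 ^ j := by
  obtain ⟨P, hP⟩ := Pool.Agent.Q224.ThreeGood.main n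
  refine ⟨P, fun p hp => ⟨?_, hP p hp⟩⟩
  exact Finset.card_pos.2 (P.nonempty_of_mem_parts hp)

end Pool.Agent.Results.MP_b44c8b_co.ThreeGoodPartition
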